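import Pool.Agent.R677.ZP.Grp

set_option autoImplicit false
open CategoryTheory

namespace Pool.Agent.R677.ZP

set_option linter.unusedSectionVars false

open Pool.Agent.R677.Baer Pool.Agent.R677.Zeros Pool.Agent.W367.SN Pool.Agent.Helper199.RepDim

noncomputable section

variable {p : ℕ} [hp : Fact p.Prime] {H : Type} [Group H] [Finite H]

/-- the base group as a multiplicative group -/
def emb : Multiplicative (Bs p H) →* SD (Bs p H) H where
  toFun v := SD.inV v.toAdd
  map_one' := rfl
  map_mul' _ _ := SD.inV_add _ _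

theorem conj_inV (g : SD (Bs p H) H) (v : Bs p H) : g * SD.inV v * g⁻¹ = SD.inV (g.m • v) := by
  rcases g with ⟨u, h⟩
  simp only [SD.inV, SD.mul_def, SD.inv_def]
  refine SD.ext ?_ ?_
  · simp
  · simp

/-- no irreducible character vanishes on the base -/
theorem char_ne (hH : ¬ p ∣ Nat.card H) (V : FDRep ℂ (SD (Bs p H) H)) (hV : Simple V)
    (x : SD (Bs p H) H) (hx : x.m = 1) : V.character x ≠ 0 := by
  classical
  have : NeZero p := ⟨hp.out.ne_zero⟩
  have : Fintype H := Fintype.ofFinite H
  have : Fintype (Bs p H) := Fintype.ofFinite _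
  have : Fintype (SD (Bs p H) H) := Fintype.ofEquiv _ (eqv (p := p) (H := H)).symm
  obtain ⟨ν, w, hw, hν⟩ := exists_char V (simple_nonzero V) (emb (p := p) (H := H))
  apply char_ne_zero V hV x w
  have hx' : x = SD.inV x.v := SD.ext rfl hx
  have h1 : ∀ g : SD (Bs p H) H, V.ρ (g * x * g⁻¹) w =
      ν (Multiplicative.ofAdd (g.m • x.v)) • w := by
    intro g
    rw [hx', conj_inV]
    exact hν (Multiplicative.ofAdd (g.m • x.v))
  rw [Finset.sum_congr rfl (fun g _ => h1 g), ← Finset.sum_smul]
  have h2 : ∑ g : SD (Bs p H) H, ν (Multiplicative.ofAdd (g.m • x.v)) =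
      (Fintype.card (Bs p H) : ℂ) * ∑ h : H, ν (Multiplicative.ofAdd (h • x.v)) := by
    rw [← Equiv.sum_comp (eqv (p := p) (H := H)).symm, Fintype.sum_prod_type]
    simp only [eqv, Equiv.coe_fn_symm_mk]
    rw [Finset.sum_const, Finset.card_univ, nsmul_eq_mul]
  rw [h2]
  intro h0
  have h3 := (smul_eq_zero.1 h0).resolve_right hw
  have hc : (Fintype.card (Bs p H) : ℂ) ≠ 0 := by exact_mod_cast Fintype.card_ne_zero
  refine mul_ne_zero hc (sum_roots_ne p ?_ _ ?_) h3
  · rwa [← Nat.card_eq_fintype_card]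
  · intro h
    rw [← map_pow, ← ofAdd_nsmul, nsmul_p]
    exact map_one ν

/-- conjugacy classes outside the base are large -/
theorem class_large (x : SD (Bs p H) H) (hx : x.m ≠ 1) :
    ∃ f : ZMod p → SD (Bs p H) H, Function.Injective f ∧ ∀ c, IsConj (f c) x := by
  refine ⟨fun c => SD.inV (dl p H c) * x * (SD.inV (dl p H c))⁻¹, ?_, ?_⟩
  · intro c d hcd
    have h1 : ∀ c, (SD.inV (dl p H c) : SD (Bs p H) H) * x * (SD.inV (dl p H c))⁻¹ =
        SD.inV (dl p H c - x.m • dl p H c) * x := by
      intro c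
      rw [← SD.comm_V]; group
    change (SD.inV (dl p H c) : SD (Bs p H) H) * x * (SD.inV (dl p H c))⁻¹ =
      (SD.inV (dl p H d) : SD (Bs p H) H) * x * (SD.inV (dl p H d))⁻¹ at hcd
    rw [h1, h1] at hcd
    have h0 : (dl p H c - x.m • dl p H c : Bs p H) = dl p H d - x.m • dl p H d :=
      congrArg SD.v (mul_right_cancel hcd)
    have h2 := congrFun h0 1
    change dl p H c 1 - dl p H c (x.m⁻¹ * 1) = dl p H d 1 - dl p H d (x.m⁻¹ * 1) at h2
    have h3 : x.m⁻¹ * 1 ≠ 1 := by
      rw [mul_one]
      exact fun h' => hx (inv_eq_one.1 h')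
    unfold dl at h2
    rw [if_pos rfl, if_pos rfl, if_neg h3, if_neg h3, sub_zero, sub_zero] at h2
    exact h2
  · intro c
    exact (isConj_iff.2 ⟨_, rfl⟩ : IsConj x _).symm

/-- the classes outside the base -/
def outC (p : ℕ) (H : Type) [Group H] : Set (ConjClasses (SD (Bs p H) H)) :=
  {c | ∃ x, ConjClasses.mk x = c ∧ x.m ≠ 1}

theorem out_count : p * (outC p H).ncard ≤ Nat.card (Bs p H) * Nat.card H := by
  classical
  have : NeZero p := ⟨hp.out.ne_zero⟩
  have : Fintype (SD (Bs p H) H) := Fintype.ofFinite _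
  have : Fintype (ConjClasses (SD (Bs p H) H)) := Fintype.ofFinite _
  have hG : Nat.card (Bs p H) * Nat.card H = Fintype.card (SD (Bs p H) H) := by
    rw [← Nat.card_prod, ← Nat.card_eq_fintype_card]
    exact (Nat.card_congr (eqv (p := p) (H := H))).symm
  rw [hG, ← Finset.card_univ, Finset.card_eq_sum_card_fiberwise (f := ConjClasses.mk)
    (t := Finset.univ) (fun x _ => Finset.mem_univ _)]
  have hsub : (outC p H).toFinset ⊆ Finset.univ := Finset.subset_univ _
  refine le_trans ?_ (Finset.sum_le_sum_of_subset hsub)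
  rw [Set.ncard_eq_toFinset_card', mul_comm, ← smul_eq_mul]
  apply Finset.card_nsmul_le_sum
  intro c hc
  rw [Set.mem_toFinset] at hc
  obtain ⟨x, rfl, hx⟩ := hc
  obtain ⟨f, hf, hfx⟩ := class_large x hx
  calc p = Fintype.card (ZMod p) := (ZMod.card p).symm
    _ = (Finset.univ.image f).card := by
      rw [Finset.card_image_of_injective _ hf, Finset.card_univ]
    _ ≤ _ := by
      apply Finset.card_le_card
      intro y hy
      rw [Finset.mem_image] at hy
      obtain ⟨c, _, rfl⟩ := hy
      rw [Finset.mem_filter]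
      exact ⟨Finset.mem_univ _, ConjClasses.mk_eq_mk_iff_isConj.2 (hfx c)⟩

theorem in_count : Nat.card (Bs p H) ≤ Nat.card H * Nat.card (ConjClasses (SD (Bs p H) H)) := by
  classical
  have : NeZero p := ⟨hp.out.ne_zero⟩
  have : Fintype H := Fintype.ofFinite H
  have : Fintype (Bs p H) := Fintype.ofFinite _
  have : Fintype (ConjClasses (SD (Bs p H) H)) := Fintype.ofFinite _
  rw [Nat.card_eq_fintype_card, Nat.card_eq_fintype_card, Nat.card_eq_fintype_card]
  have h1 : (Finset.univ : Finset (Bs p H)).card = ∑ c : ConjClasses (SD (Bs p H) H),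
      (Finset.univ.filter (fun v : Bs p H => ConjClasses.mk (SD.inV v : SD (Bs p H) H) = c)).card :=
    Finset.card_eq_sum_card_fiberwise (fun x _ => Finset.mem_univ _)
  rw [← Finset.card_univ, h1]
  have h2 : ∀ c ∈ (Finset.univ : Finset (ConjClasses (SD (Bs p H) H))),
      (Finset.univ.filter (fun v : Bs p H => ConjClasses.mk (SD.inV v : SD (Bs p H) H) = c)).card
        ≤ Fintype.card H := by
    intro c _
    by_cases hc : ∃ v : Bs p H, ConjClasses.mk (SD.inV v : SD (Bs p H) H) = c
    · obtain ⟨v, rfl⟩ := hc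
      calc _ ≤ ((Finset.univ : Finset H).image (fun h => h • v)).card := by
            apply Finset.card_le_card
            intro w hw
            rw [Finset.mem_filter, ConjClasses.mk_eq_mk_iff_isConj] at hw
            obtain ⟨g, hg⟩ := isConj_iff.1 hw.2.symm
            rw [conj_inV] at hg
            rw [Finset.mem_image]
            exact ⟨g.m, Finset.mem_univ _, congrArg SD.v hg⟩
        _ ≤ _ := Finset.card_image_le
        _ = _ := Finset.card_univ
    · rw [Finset.filter_eq_empty_iff.2]
      · simp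
      · intro v _ h
        exact hc ⟨v, h⟩
  calc _ ≤ (Finset.univ : Finset (ConjClasses (SD (Bs p H) H))).card • Fintype.card H :=
        Finset.sum_le_card_nsmul _ _ _ h2
    _ = _ := by rw [smul_eq_mul, Finset.card_univ, mul_comm]

end

end Pool.Agent.R677.ZP
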