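import Mathlib

set_option autoImplicit false

namespace Pool.Agent.R677.ZP

open Polynomial

/-- A sum of `n` complex `p`-th roots of unity is nonzero when `p` does not divide `n`. -/
theorem sum_roots_ne {ι : Type} [Fintype ι] (p : ℕ) [hp : Fact p.Prime] (hι : ¬ p ∣ Fintype.card ι)
    (f : ι → ℂ) (hf : ∀ i, f i ^ p = 1) : ∑ i, f i ≠ 0 := by
  intro h0
  have hpos : 0 < p := hp.out.pos
  have hζ := Complex.isPrimitiveRoot_exp p hpos.ne'
  set ζ := Complex.exp (2 * Real.pi * Complex.I / p) with hζdef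
  have : NeZero p := ⟨hpos.ne'⟩
  choose a _ ha using fun i => hζ.eq_pow_of_pow_eq_one (hf i)
  let P : ℤ[X] := ∑ i, X ^ a i
  have h1 : aeval ζ P = 0 := by
    simp only [P, map_sum, map_pow, aeval_X]
    rw [← h0]
    exact Finset.sum_congr rfl fun i _ => ha i
  have h2 : cyclotomic p ℤ ∣ P := by
    rw [cyclotomic_eq_minpoly hζ hpos]
    exact minpoly.isIntegrallyClosed_dvd (hζ.isIntegral hpos) h1
  obtain ⟨Q, hQ⟩ := h2
  have h3 := congrArg (eval 1) hQ
  rw [eval_mul, eval_one_cyclotomic_prime] at h3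
  have h4 : eval 1 P = (Fintype.card ι : ℤ) := by
    simp [P, eval_finsetSum]
  rw [h4] at h3
  apply hι
  have : (p : ℤ) ∣ (Fintype.card ι : ℤ) := ⟨eval 1 Q, h3⟩
  exact_mod_cast this

end Pool.Agent.R677.ZP
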