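import Pool.Agent.R677.Baer.Abs
import Pool.Agent.R677.ZP.Roots
import Pool.Agent.R677.Zeros.Base

set_option autoImplicit false
open CategoryTheory
open scoped commutatorElement

namespace Pool.Agent.R677.ZP

set_option linter.unusedSectionVars false

open Pool.Agent.R677.Baer Pool.Agent.R677.Zeros Pool.Agent.W367.SN Pool.Agent.Helper199.RepDim

noncomputable section

/-- the base group -/
def Bs (p : ℕ) (H : Type) : Type := H → ZMod p

instance (p : ℕ) (H : Type) : AddCommGroup (Bs p H) := inferInstanceAs (AddCommGroup (H → ZMod p))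

instance (p : ℕ) [NeZero p] (H : Type) [Finite H] : Finite (Bs p H) :=
  inferInstanceAs (Finite (H → ZMod p))

instance (p : ℕ) (H : Type) [Group H] : DistribMulAction H (Bs p H) where
  smul h f := fun x => f (h⁻¹ * x)
  one_smul f := funext fun x => by
    change f (1⁻¹ * x) = f x
    rw [inv_one, one_mul]
  mul_smul a b f := funext fun x => by
    change f ((a * b)⁻¹ * x) = f (b⁻¹ * (a⁻¹ * x))
    rw [mul_inv_rev, mul_assoc]
  smul_zero a := rfl
  smul_add a f g := rfl

variable {p : ℕ} [hp : Fact p.Prime] {H : Type} [Group H]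

omit hp in
theorem bs_smul (h : H) (f : Bs p H) (x : H) : (h • f) x = f (h⁻¹ * x) := rfl

omit [Group H] in
theorem nsmul_p (f : Bs p H) : p • f = 0 := by
  funext x
  change p • f x = 0
  rw [nsmul_eq_mul, CharP.cast_eq_zero, zero_mul]

/-- the indicator of the identity -/
def dl (p : ℕ) (H : Type) [Group H] (c : ZMod p) : Bs p H :=
  open Classical in fun x => if x = 1 then c else 0

theorem dl_fix {h : H} (hh : h • dl p H 1 = dl p H 1) : h = 1 := by
  have := congrFun hh 1
  rw [bs_smul, mul_one] at this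
  unfold dl at this
  rw [if_pos rfl] at this
  by_contra hne
  have h2 : h⁻¹ ≠ 1 := fun h' => hne (inv_eq_one.1 h')
  rw [if_neg h2] at this
  exact zero_ne_one this

omit hp in
/-- a torsion element killed by two coprime numbers vanishes -/
theorem coprime_kill {A : Type} [AddCommGroup A] {m n : ℕ} (h : Nat.Coprime m n) (a : A)
    (h1 : m • a = 0) (h2 : n • a = 0) : a = 0 := by
  have h3 := Nat.gcd_eq_gcd_ab m n
  rw [h.gcd_eq_one] at h3
  have h4 : ((1 : ℕ) : ℤ) • a = 0 := by
    rw [h3, add_smul, mul_comm, mul_smul, mul_comm (n : ℤ), mul_smul, natCast_zsmul, natCast_zsmul,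
      h1, h2, smul_zero, smul_zero, add_zero]
  simpa using h4

variable [Finite H]

theorem D_drop (hH : ¬ p ∣ Nat.card H) (h : H) (u : Bs p H) (hu : D h (D h u) = 0) : D h u = 0 := by
  have hfix : h • D h u = D h u := sub_eq_zero.1 hu
  have key : ∀ n : ℕ, h ^ n • u = u + n • D h u := by
    intro n
    induction n with
    | zero => simp
    | succ n ih =>
      rw [pow_succ', mul_smul, ih, smul_add]
      have h1 : h • (n • D h u) = n • D h u := by
        have h2 := (DistribSMul.toAddMonoidHom (Bs p H) h).map_nsmul n (D h u)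
        change h • (n • D h u) = n • (h • D h u) at h2
        rw [h2, hfix]
      rw [h1, D_apply, succ_nsmul]
      abel
  have h1 := key (Nat.card H)
  rw [pow_card_eq_one', one_smul] at h1
  have h2 : Nat.card H • D h u = 0 := by
    have : u + 0 = u + Nat.card H • D h u := by rw [add_zero]; exact h1
    exact (add_left_cancel this).symm
  exact coprime_kill ((Nat.Prime.coprime_iff_not_dvd hp.out).2 hH) _ (nsmul_p _) h2

theorem D_iter_drop (hH : ¬ p ∣ Nat.card H) (h : H) (n : ℕ) :
    (∀ u : Bs p H, (D h)^[n + 1] u = 0) → ∀ u : Bs p H, D h u = 0 := by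
  induction n with
  | zero => intro hn u; exact hn u
  | succ n ih =>
    intro hn
    apply ih
    intro u
    have h1 := hn u
    rw [Function.iterate_succ_apply', Function.iterate_succ_apply'] at h1
    rw [Function.iterate_succ_apply']
    exact D_drop hH h _ h1

/-- nilpotent normal subgroups lie in the base -/
theorem nil_le (hH : ¬ p ∣ Nat.card H) (N : Subgroup (SD (Bs p H) H)) (hN : N.Normal)
    (hnil : ∃ k, N.lowerCentralSeries k ≤ ⊥) : N ≤ (SD.proj : SD (Bs p H) H →* H).ker := by
  intro x hx
  rw [MonoidHom.mem_ker]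
  change x.m = 1
  have key : ∀ (j : ℕ) (u : Bs p H), (SD.inV ((D x.m)^[j + 1] u) : SD (Bs p H) H) ∈
      N.lowerCentralSeries j := by
    intro j
    induction j with
    | zero =>
      intro u
      have h1 : (SD.inV u : SD (Bs p H) H) * x * (SD.inV u)⁻¹ * x⁻¹ ∈ N :=
        N.mul_mem (hN.conj_mem x hx _) (N.inv_mem hx)
      rw [SD.comm_V] at h1
      have h2 := N.inv_mem h1
      have h3 : (SD.inV (u - x.m • u) : SD (Bs p H) H)⁻¹ = SD.inV (D x.m u) := by
        simp [SD.inV, SD.inv_def, D_apply]
      rw [h3] at h2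
      exact h2
    | succ j ih =>
      intro u
      have h1 := Subgroup.commutator_mem_commutator (ih u) hx
      rw [commutatorElement_def, SD.comm_V] at h1
      have h2 := Subgroup.inv_mem _ h1
      have h3 : ∀ w : Bs p H, (SD.inV (w - x.m • w) : SD (Bs p H) H)⁻¹ = SD.inV (D x.m w) := by
        intro w
        simp [SD.inV, SD.inv_def, D_apply]
      rw [h3] at h2
      rw [Subgroup.lowerCentralSeries_succ, Function.iterate_succ_apply']
      exact h2
  obtain ⟨k, hk⟩ := hnil
  have h1 : ∀ u : Bs p H, (D x.m)^[k + 1] u = 0 := by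
    intro u
    have := hk (key k u)
    rw [Subgroup.mem_bot] at this
    exact congrArg SD.v this
  have h2 := D_iter_drop hH x.m k h1 (dl p H 1)
  exact dl_fix (sub_eq_zero.1 h2)

/-- the Fitting series: `fs G (i + 1)` is generated by the normal subgroups of `G` that are
nilpotent modulo `fs G i` -/
def fs (G : Type) [Group G] : ℕ → Subgroup G
  | 0 => ⊥
  | i + 1 => sSup {N : Subgroup G | N.Normal ∧ ∃ k, N.lowerCentralSeries k ≤ fs G i}

theorem fs_le (hH : ¬ p ∣ Nat.card H) (i : ℕ) :
    fs (SD (Bs p H) H) (i + 1) ≤ (fs H i).comap SD.proj := by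
  induction i with
  | zero =>
    apply sSup_le
    rintro N ⟨hN, hk⟩
    exact nil_le hH N hN hk
  | succ i ih =>
    apply sSup_le
    rintro N ⟨hN, k, hk⟩
    rw [← Subgroup.map_le_iff_le_comap]
    apply le_sSup
    have hsurj : Function.Surjective (SD.proj : SD (Bs p H) H →* H) := fun h => ⟨SD.inM h, rfl⟩
    refine ⟨hN.map _ hsurj, k, ?_⟩
    rw [← Subgroup.map_lowerCentralSeries]
    rw [Subgroup.map_le_iff_le_comap]
    exact hk.trans ih

theorem fs_step (hH : ¬ p ∣ Nat.card H) (i : ℕ) (h : fs H i ≠ ⊤) :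
    fs (SD (Bs p H) H) (i + 1) ≠ ⊤ := by
  intro h1
  apply h
  rw [eq_top_iff]
  intro x _
  have h2 : (SD.inM x : SD (Bs p H) H) ∈ fs (SD (Bs p H) H) (i + 1) := by rw [h1]; trivial
  exact fs_le hH i h2

/-- the underlying product -/
def eqv : SD (Bs p H) H ≃ Bs p H × H where
  toFun x := (x.v, x.m)
  invFun x := ⟨x.1, x.2⟩
  left_inv _ := rfl
  right_inv _ := rfl

instance : Finite (SD (Bs p H) H) :=
  have : NeZero p := ⟨hp.out.ne_zero⟩
  Finite.of_equiv _ (eqv (p := p) (H := H)).symm

theorem solvable (hs : Group.IsSolvable H) : Group.IsSolvable (SD (Bs p H) H) := by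
  let f : Multiplicative (Bs p H) →* SD (Bs p H) H :=
    { toFun := fun v => SD.inV v.toAdd
      map_one' := rfl
      map_mul' := fun a b => SD.inV_add _ _ }
  refine Group.isSolvable_of_ker_le_range f SD.proj ?_
  intro x hx
  rw [MonoidHom.mem_ker] at hx
  exact ⟨Multiplicative.ofAdd x.v, SD.ext rfl hx.symm⟩

end

end Pool.Agent.R677.ZP
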